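import Pool.Agent.Helper64.SPX.Spec2

/-!
# Spectral products: lattices with an obtuse superbase (Voronoi's first kind), all lattices of `ℝ³`
-/

set_option autoImplicit false

open MeasureTheory Filter Topology Set
open scoped InnerProductSpace ENNReal

namespace Pool.Agent.Helper64.SPX

section

variable {ι ω : Type} [Fintype ι] [Fintype ω]

/-- obtuse superbases: `n + 1` spanning vectors with sum zero and nonpositive inner products -/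
structure Obt (b : ω → E ι) : Prop where
  sum : ∑ o, b o = 0
  card : Fintype.card ω = Fintype.card ι + 1
  span : ⊤ ≤ Submodule.span ℝ (Set.range b)
  obt : ∀ o o', o ≠ o' → ⟪b o, b o'⟫_ℝ ≤ 0

/-- the Voronoi cell of the lattice generated by `b` -/
def vorB (b : ω → E ι) : Set (E ι) := {x | ∀ c : ω → ℤ, ‖x‖ ≤ ‖x - ∑ o, (c o : ℝ) • b o‖}

/-- `b_K = ∑_{o ∈ K} b_o` -/
def bS (b : ω → E ι) (K : Finset ω) : E ι := ∑ o ∈ K, b o

/-- `K` is tight at `x` -/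
def Tight (b : ω → E ι) (x : E ι) (K : Finset ω) : Prop :=
  ⟪bS b K, x⟫_ℝ = ‖bS b K‖ ^ 2 / 2

/-- the sets `K` which give inequalities -/
abbrev Prp (ω : Type) [Fintype ω] : Type := {K : Finset ω // K.Nonempty ∧ K ≠ Finset.univ}

open Classical in
/-- the polytope of the inequalities `⟪b_K, x⟫ ≤ ‖b_K‖²/2` -/
noncomputable def fk (b : ω → E ι) : HP ι where
  N := Fintype.card (Prp ω)
  u k := bS b ((Fintype.equivFin (Prp ω)).symm k).1
  h k := ‖bS b ((Fintype.equivFin (Prp ω)).symm k).1‖ ^ 2 / 2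

/-- the graph of the superbase is connected off every vertex -/
def TwoConn (adj : ω → ω → Prop) : Prop := ∀ o : ω, ∀ K : Finset ω, o ∉ K → K.Nonempty →
  (∃ j, j ≠ o ∧ j ∉ K) → ∃ k ∈ K, ∃ j, j ≠ o ∧ j ∉ K ∧ adj k j

/-- the graph of the superbase -/
def Adj (b : ω → E ι) (o o' : ω) : Prop := ⟪b o, b o'⟫_ℝ < 0

end

/-- K0: basic facts.  Every proper nonempty `b_K` is different from zero, `‖b_K‖² = -⟪b_K, b_{Kᶜ}⟫`, the
graph is connected, and removing one vector leaves a basis of the same lattice. -/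
def S_K0 : Prop := ∀ (ι ω : Type) [Fintype ι] [Fintype ω] (b : ω → E ι), Obt b →
  (∀ K : Finset ω, K.Nonempty → K ≠ Finset.univ → bS b K ≠ 0 ∧ (∃ k ∈ K, ∃ j, j ∉ K ∧ Adj b k j)) ∧
  (∃ β : Module.Basis ι ℝ (E ι), (∀ x, x ∈ lat β ↔ ∃ c : ω → ℤ, x = ∑ o, (c o : ℝ) • b o)) ∧
  (∀ g : ω → ℝ, ∑ o, g o = 0 → ∃ x : E ι, ∀ o, ⟪b o, x⟫_ℝ = g o)

/-- K1: the Voronoi cell is given by the inequalities of the `b_K`; equality cases for all lattice vectors: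
with `p_{jk} = -⟪b_j, b_k⟫`, `‖Σ c_o b_o‖² = Σ_{j<k} p_{jk} (c_j - c_k)²`, and `⟪Σ c_o b_o, x⟫` is the sum over
the levels `m` of `⟪b_{c ≥ m}, x⟫ ≤ (1/2) Σ_{c_j ≥ m > c_k} p_{jk}` -/
def S_K1 : Prop := ∀ (ι ω : Type) [Fintype ι] [Fintype ω] (b : ω → E ι), Obt b →
  (fk b).body = vorB b ∧ (fk b).Good ∧
  ∀ x ∈ vorB b, ∀ c : ω → ℤ, ‖x - ∑ o, (c o : ℝ) • b o‖ = ‖x‖ ↔
    (∀ o o', Adj b o o' → |c o - c o'| ≤ 1) ∧
    ∀ (m : ℤ) (K : Finset ω), (∀ o, o ∈ K ↔ m ≤ c o) → K.Nonempty → K ≠ Finset.univ → Tight b x K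

/-- K2: the points of ordered partitions: `⟪b_k, x⟫ = (1/2) Σ_j p_{kj} sign(ρ_j - ρ_k)` (from K0, K1) -/
def S_K2 : Prop := ∀ (ι ω : Type) [Fintype ι] [Fintype ω] (b : ω → E ι), Obt b → ∀ ρ : ω → ℤ,
  ∃ x ∈ vorB b, ∀ K : Finset ω, K.Nonempty → K ≠ Finset.univ →
    (Tight b x K ↔ ∀ k ∈ K, ∀ j, j ∉ K → Adj b k j → ρ k < ρ j)

/-- K4: `st`-numbering starting at `i` -/
def S_K4 : Prop := ∀ (ω : Type) [Fintype ω] (adj : ω → ω → Prop), (∀ o o', adj o o' → adj o' o) →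
  (∀ K : Finset ω, K.Nonempty → K ≠ Finset.univ → ∃ k ∈ K, ∃ j, j ∉ K ∧ adj k j) →
  TwoConn adj → 2 ≤ Fintype.card ω → ∀ i : ω, ∃ σ : ω → ℤ, Function.Injective σ ∧
  (∀ o, o ≠ i → σ i < σ o) ∧
  ∀ k, k ≠ i → ¬ adj k i → (∃ j, j ≠ i ∧ adj k j ∧ σ j < σ k) ∧ ∃ j, j ≠ i ∧ adj k j ∧ σ k < σ j

/-- K3: the facets `{i}` are locked if the graph is two-connected (from K0 K1 K2 K4) -/
def S_K3 : Prop := ∀ (ι ω : Type) [Fintype ι] [Fintype ω] (b : ω → E ι), Obt b →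
  TwoConn (Adj b) → 2 ≤ Fintype.card ω → ∀ i : ω, ∃ k : Fin (fk b).N, (fk b).Locked k (b i)

/-- K5: a cut vertex gives a product -/
def S_K5 : Prop := ∀ (ι ω : Type) [Fintype ι] [Fintype ω] (b : ω → E ι), Obt b →
  ¬ TwoConn (Adj b) → ∃ (ι₁ ι₂ ω₁ ω₂ : Type) (_ : Fintype ι₁) (_ : Fintype ι₂) (_ : Fintype ω₁)
    (_ : Fintype ω₂) (b₁ : ω₁ → E ι₁) (b₂ : ω₂ → E ι₂) (T : E (ι₁ ⊕ ι₂) ≃ₗ[ℝ] E ι),
    Obt b₁ ∧ Obt b₂ ∧ Fintype.card ι₁ < Fintype.card ι ∧ Fintype.card ι₂ < Fintype.card ι ∧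
    T '' (prodSet (vorB b₁) (vorB b₂)) = vorB b

/-- K6: Selling: every lattice of `ℝ³` has an obtuse superbase -/
def S_K6 : Prop := ∀ (ι : Type) [Fintype ι] (β : Module.Basis ι ℝ (E ι)), Fintype.card ι = 3 →
  ∃ (ω : Type) (_ : Fintype ω) (b : ω → E ι), Obt b ∧
    ∀ x, x ∈ lat β ↔ ∃ c : ω → ℤ, x = ∑ o, (c o : ℝ) • b o

/-- K7: two-connected graphs give locked tiles (from K0 K1 K3 V4) -/
def S_K7 : Prop := ∀ (ι ω : Type) [Fintype ι] [Fintype ω] (b : ω → E ι), Obt b →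
  TwoConn (Adj b) → (fk b).LockedTile

/-- the Voronoi cells of all lattices of the first kind are in the class -/
theorem fk_cls (hK1 : S_K1) (hK5 : S_K5) (hK7 : S_K7) :
    ∀ (n : ℕ) (ι ω : Type) [Fintype ι] [Fintype ω] (b : ω → E ι), Fintype.card ι = n → Obt b →
      Cls ι (vorB b) := by
  intro n
  induction n using Nat.strong_induction_on with
  | _ n ih =>
    intro ι ω _ _ b hn hb
    by_cases h : TwoConn (Adj b)
    · rw [← (hK1 ι ω b hb).1]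
      exact Cls.locked ι _ (hK7 ι ω b hb h)
    · obtain ⟨ι₁, ι₂, ω₁, ω₂, i1, i2, i3, i4, b₁, b₂, T, h1, h2, h3, h4, h5⟩ := hK5 ι ω b hb h
      rw [← h5]
      apply Cls.map
      apply Cls.prod
      · exact ih (Fintype.card ι₁) (hn ▸ h3) ι₁ ω₁ b₁ rfl h1
      · exact ih (Fintype.card ι₂) (hn ▸ h4) ι₂ ω₂ b₂ rfl h2

/-- the Voronoi cells of all lattices of `ℝ³` are in the class -/
theorem three_cls (hK1 : S_K1) (hK5 : S_K5) (hK6 : S_K6) (hK7 : S_K7) (ι : Type) [Fintype ι]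
    (β : Module.Basis ι ℝ (E ι)) (h3 : Fintype.card ι = 3) : Cls ι (vor β) := by
  obtain ⟨ω, _, b, hb, hlat⟩ := hK6 ι β h3
  have : vor β = vorB b := by
    ext x
    constructor
    · intro hx c
      exact hx _ ((hlat _).2 ⟨c, rfl⟩)
    · intro hx l hl
      obtain ⟨c, rfl⟩ := (hlat l).1 hl
      exact hx c
  rw [this]
  exact fk_cls hK1 hK5 hK7 _ ι ω b rfl hb

end Pool.Agent.Helper64.SPX
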