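import Pool.Agent.Helper64.SPX.Spec3

set_option autoImplicit false

open MeasureTheory Filter Topology Set
open scoped InnerProductSpace ENNReal

namespace Pool.Agent.Helper64.SPX.K7

theorem main (hK0 : S_K0) (hK1 : S_K1) (hK3 : S_K3) (hV4 : S_V4) : S_K7 := by
  intro ι ω _ _ b hb htc
  obtain ⟨-, ⟨β, hβ⟩, -⟩ := hK0 ι ω b hb
  obtain ⟨hbody, hgood, -⟩ := hK1 ι ω b hb
  have hvor : vor β = vorB b := by
    ext x
    constructor
    · intro hx c
      exact hx _ ((hβ _).2 ⟨c, rfl⟩)
    · intro hx l hl
      obtain ⟨c, rfl⟩ := (hβ l).1 hl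
      exact hx c
  refine ⟨hgood, β, ?_, ?_⟩
  · rw [hbody, ← hvor]
    exact hV4 ι β
  · intro x hx
    obtain ⟨c, rfl⟩ := (hβ x).1 hx
    by_cases h2 : 2 ≤ Fintype.card ω
    · set N : ℕ := ∑ o, (c o).natAbs with hN
      have hnn : ∀ o, 0 ≤ c o + N := by
        intro o
        have h1 : (c o).natAbs ≤ N := by
          rw [hN]
          exact Finset.single_le_sum (f := fun o => (c o).natAbs) (fun _ _ => Nat.zero_le _)
            (Finset.mem_univ o)
        omega
      have hsum : ∑ o, (c o : ℝ) • b o = ∑ o, (c o + N).toNat • b o := by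
        have h1 : ∑ o, (c o + N).toNat • b o = ∑ o, ((c o : ℝ) • b o + (N : ℝ) • b o) := by
          apply Finset.sum_congr rfl
          intro o _
          rw [← Nat.cast_smul_eq_nsmul ℝ, ← add_smul]
          congr 1
          have := Int.toNat_of_nonneg (hnn o)
          have h3 : (((c o + N).toNat : ℤ) : ℝ) = ((c o + N : ℤ) : ℝ) := by rw [this]
          push_cast at h3
          exact h3
        rw [h1, Finset.sum_add_distrib, ← Finset.smul_sum, hb.sum, smul_zero, add_zero]
      rw [hsum]
      apply sum_mem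
      intro o _
      apply nsmul_mem
      apply AddSubmonoid.subset_closure
      exact hK3 ι ω b hb htc h2 o
    · have h1 : Fintype.card ι = 0 := by
        have := hb.card
        omega
      have : IsEmpty ι := Fintype.card_eq_zero_iff.mp h1
      have h3 : ∑ o, (c o : ℝ) • b o = 0 := Subsingleton.elim _ _
      rw [h3]
      exact zero_mem _

end Pool.Agent.Helper64.SPX.K7
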