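import Pool.Agent.Helper64.SPX.Defs

/-!
# Spectral sets and translations
-/

set_option autoImplicit false

open MeasureTheory Filter Topology Set
open scoped InnerProductSpace ENNReal

namespace Pool.Agent.Helper64.SPX

lemma ee_add' (s t : ℝ) : ee (s + t) = ee s * ee t := by
  unfold ee
  rw [← Complex.exp_add]
  congr 1
  push_cast
  ring

theorem spectral_translate {ι : Type} [Fintype ι] (Ω : Set (E ι)) (c : E ι) (h : Spectral Ω) :
    Spectral ((fun x => x + c) '' Ω) := by
  obtain ⟨Λ, h1, h2⟩ := h
  have hmp : MeasurePreserving (fun x : E ι => x + c) volume volume :=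
    measurePreserving_add_right volume c
  have hemb : MeasurableEmbedding (fun x : E ι => x + c) := measurableEmbedding_addRight c
  refine ⟨Λ, ?_, ?_⟩
  · intro a ha b hb hab
    rw [hmp.setIntegral_image_emb hemb]
    have : ∀ x : E ι, ee ⟪a - b, x + c⟫_ℝ = ee ⟪a - b, x⟫_ℝ * ee ⟪a - b, c⟫_ℝ := by
      intro x
      rw [inner_add_right, ee_add']
    simp_rw [this]
    rw [integral_mul_const, h1 a ha b hb hab, zero_mul]
  · intro f hf hf0
    have hmap : Measure.map (fun x : E ι => x + c) (volume.restrict Ω) =
        volume.restrict ((fun x => x + c) '' Ω) :=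
      (hmp.restrict_image_emb hemb Ω).map_eq
    have hg : MemLp (fun x => f (x + c)) 2 (volume.restrict Ω) := by
      have := hf
      rw [← hmap] at this
      exact (hemb.memLp_map_measure_iff).1 this
    have h3 := h2 _ hg ?_
    · rw [← hmap]
      rw [Filter.EventuallyEq, hemb.ae_map_iff]
      exact h3
    · intro a ha
      have h4 := hf0 a ha
      rw [hmp.setIntegral_image_emb hemb] at h4
      have h5 : ∀ x : E ι, f (x + c) * ee (-⟪a, x⟫_ℝ) =
          (f (x + c) * ee (-⟪a, x + c⟫_ℝ)) * ee ⟪a, c⟫_ℝ := by
        intro x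
        rw [mul_assoc, ← ee_add', inner_add_right]
        congr 2
        ring
      simp_rw [h5]
      rw [integral_mul_const, h4, zero_mul]

end Pool.Agent.Helper64.SPX
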