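import Pool.Agent.Helper64.SPX.Main
import Pool.Agent.Helper64.SPX.Spec3
import Pool.Agent.Helper64.SPX.K7
import Pool.Agent.Helper64.SPX.Trans
import Pool.Agent.Helper11.SPX.K0
import Pool.Agent.Helper39.SPX.K1
import Pool.Agent.Helper90.SPX.K2
import Pool.Agent.Helper90.SPX.K3
import Pool.Agent.Helper27.SPX.K4
import Pool.Agent.Helper27.SPX.K5
import Pool.Agent.Helper76.SPX.K6
import Pool.Agent.Helper79.SPX.FIN
import Pool.Agent.H62.SPX.SEL
import Pool.Agent.H62.SPX.T4
import Pool.Agent.Helper1.SPX.BND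
import Pool.Agent.Helper1.SPX.T1
import Pool.Agent.Helper1.SPX.TB
import Pool.Agent.Helper18.SPX.G4
import Pool.Agent.Helper18.SPX.INV
import Pool.Agent.Helper21.SPX.DNS
import Pool.Agent.Helper21.SPX.V2
import Pool.Agent.Helper25.SPX.COUNT
import Pool.Agent.Helper27.SPX.MEAS
import Pool.Agent.Helper27.SPX.WC
import Pool.Agent.Helper47.SPX.PER
import Pool.Agent.Helper47.SPX.PL
import Pool.Agent.Helper47.SPX.SPLIT
import Pool.Agent.Helper56.SPX.AMAL
import Pool.Agent.Helper56.SPX.CONT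
import Pool.Agent.Helper67.SPX.G2
import Pool.Agent.Helper74.SPX.V1
import Pool.Agent.Helper76.SPX.DENS
import Pool.Agent.Helper79.SPX.ATOM
import Pool.Agent.Helper85.SPX.V34
import Pool.Agent.Helper86.SPX.LIM
import Pool.Agent.Helper86.SPX.T3
import Pool.Agent.Helper9.SPX.LAM
import Pool.Agent.Helper9.SPX.SM
import Pool.Agent.Helper94.SPX.PARS
import Pool.Agent.Helper94.SPX.SEPA
import Pool.Agent.Helper97.SPX.G1
import Pool.Agent.Helper97.SPX.G3

/-!
# Spectral products: everything together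
-/

set_option autoImplicit false

namespace Pool.Agent.Helper64.SPX

theorem split_thm : S_SPLIT := Pool.Agent.Helper47.SPX.SPLIT.main
theorem amal_thm : S_AMAL := Pool.Agent.Helper56.SPX.AMAL.main
theorem cont_thm : S_CONT := Pool.Agent.Helper56.SPX.CONT.main amal_thm
theorem dens_thm : S_DENS := Pool.Agent.Helper76.SPX.DENS.main amal_thm
theorem pl_thm : S_PL := Pool.Agent.Helper47.SPX.PL.main
theorem meas_thm : S_MEAS := Pool.Agent.Helper27.SPX.MEAS.main Pool.Agent.Helper25.SPX.COUNT.main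
  dens_thm Pool.Agent.Helper1.SPX.T1.main Pool.Agent.Helper86.SPX.LIM.main
  Pool.Agent.Helper86.SPX.T3.main (Pool.Agent.H62.SPX.T4.main pl_thm)
  Pool.Agent.Helper27.SPX.WC.main Pool.Agent.Helper94.SPX.PARS.main split_thm

theorem fin_thm : S_FIN :=
  Pool.Agent.Helper79.SPX.FIN.main split_thm Pool.Agent.Helper94.SPX.PARS.main
    (Pool.Agent.Helper1.SPX.BND.main split_thm)

theorem red_thm : S_RED :=
  red_main split_thm Pool.Agent.Helper94.SPX.PARS.main Pool.Agent.Helper94.SPX.SEPA.main cont_thm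
    Pool.Agent.Helper25.SPX.COUNT.main meas_thm
    (Pool.Agent.Helper9.SPX.SM.main Pool.Agent.Helper27.SPX.WC.main split_thm)
    (Pool.Agent.H62.SPX.SEL.main amal_thm cont_thm pl_thm)
    (Pool.Agent.Helper9.SPX.LAM.main amal_thm)
    (Pool.Agent.Helper47.SPX.PER.main amal_thm cont_thm)
    (Pool.Agent.Helper79.SPX.ATOM.main cont_thm split_thm)
    Pool.Agent.Helper1.SPX.TB.main fin_thm Pool.Agent.Helper21.SPX.DNS.main
    (Pool.Agent.Helper1.SPX.BND.main split_thm)

theorem g4_thm : S_G4 := Pool.Agent.Helper18.SPX.G4.main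
  (Pool.Agent.Helper97.SPX.G3.main Pool.Agent.Helper97.SPX.G1.main
    (Pool.Agent.Helper67.SPX.G2.main Pool.Agent.Helper97.SPX.G1.main))

theorem cls_thm (ι : Type) [Fintype ι] (A : Set (E ι)) (hA : Cls ι A) :
    IsCompact A ∧ 0 < MeasureTheory.volume A ∧ Removable A :=
  cls_main split_thm g4_thm red_thm Pool.Agent.Helper18.SPX.INV.main ι A hA

theorem vor_thm (ι : Type) [Fintype ι] (b : Module.Basis ι ℝ (E ι)) (hb : Primitive b) :
    Cls ι (vor b) :=
  vor_cls Pool.Agent.Helper74.SPX.V1.main Pool.Agent.Helper21.SPX.V2.main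
    Pool.Agent.Helper85.SPX.V34.mainV3 Pool.Agent.Helper85.SPX.V34.mainV4 ι b hb

theorem k1_thm : S_K1 := Pool.Agent.Helper39.SPX.K1.main Pool.Agent.Helper11.SPX.K0.main

theorem k3_thm : S_K3 := Pool.Agent.Helper90.SPX.K3 Pool.Agent.Helper11.SPX.K0.main k1_thm
  (Pool.Agent.Helper90.SPX.K2 Pool.Agent.Helper11.SPX.K0.main k1_thm) Pool.Agent.Helper27.SPX.K4.main

theorem k7_thm : S_K7 :=
  Pool.Agent.Helper64.SPX.K7.main Pool.Agent.Helper11.SPX.K0.main k1_thm k3_thm
    Pool.Agent.Helper85.SPX.V34.mainV4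

theorem first_kind (ι ω : Type) [Fintype ι] [Fintype ω] (b : ω → E ι) (hb : Obt b) :
    Cls ι (vorB b) :=
  fk_cls k1_thm Pool.Agent.Helper27.SPX.K5.main k7_thm _ ι ω b rfl hb

theorem three (ι : Type) [Fintype ι] (β : Module.Basis ι ℝ (E ι))
    (h3 : Fintype.card ι = 3) : Cls ι (vor β) :=
  three_cls k1_thm Pool.Agent.Helper27.SPX.K5.main Pool.Agent.Helper76.SPX.K6.main k7_thm
    ι β h3

end Pool.Agent.Helper64.SPX
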