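import Mathlib

/-!
# Spectral products: definitions and statements of the parts

`E ι = ℝ^ι`, `ee θ = exp(2π i θ)`.  Proofs of all parts: `SPX_BLUEPRINT.md` (team-store).
-/

set_option autoImplicit false

open MeasureTheory Filter Topology Set
open scoped InnerProductSpace ENNReal

namespace Pool.Agent.Helper64.SPX

/-- `ℝ^ι` -/
abbrev E (ι : Type) : Type := EuclideanSpace ℝ ι

/-- `exp(2π i θ)` -/
noncomputable def ee (θ : ℝ) : ℂ := Complex.exp (2 * Real.pi * θ * Complex.I)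

section defs

variable {ι κ : Type} [Fintype ι] [Fintype κ]

/-- first component -/
def fst (z : E (ι ⊕ κ)) : E ι := WithLp.toLp 2 fun i => z (Sum.inl i)

/-- second component -/
def snd (z : E (ι ⊕ κ)) : E κ := WithLp.toLp 2 fun j => z (Sum.inr j)

/-- the point `(x, y)` -/
def pair (x : E ι) (y : E κ) : E (ι ⊕ κ) := WithLp.toLp 2 (Sum.elim x y)

/-- `A × B` -/
def prodSet (A : Set (E ι)) (B : Set (E κ)) : Set (E (ι ⊕ κ)) := {z | fst z ∈ A ∧ snd z ∈ B}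

/-- `Λ` is a spectrum of `Ω`: the exponentials are orthogonal and complete in `L²(Ω)` -/
def IsSpec (Λ Ω : Set (E ι)) : Prop :=
  (∀ a ∈ Λ, ∀ b ∈ Λ, a ≠ b → ∫ x in Ω, ee (⟪a - b, x⟫_ℝ) = 0) ∧
  ∀ f : E ι → ℂ, MemLp f 2 (volume.restrict Ω) →
    (∀ a ∈ Λ, ∫ x in Ω, f x * ee (-⟪a, x⟫_ℝ) = 0) → f =ᵐ[volume.restrict Ω] 0

/-- `Ω` is spectral -/
def Spectral (Ω : Set (E ι)) : Prop := ∃ Λ, IsSpec Λ Ω

/-- Fourier transform -/
noncomputable def ft (H : E ι → ℂ) (z : E ι) : ℂ := ∫ x, H x * ee (-⟪z, x⟫_ℝ)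

/-- bounded measurable functions with bounded support -/
def Bdd (H : E ι → ℂ) : Prop :=
  Measurable H ∧ (∃ C : ℝ, ∀ x, ‖H x‖ ≤ C) ∧ ∃ r : ℝ, ∀ x, r ≤ ‖x‖ → H x = 0

/-- `H` vanishes outside of `Ω` -/
def SuppIn (H : E ι → ℂ) (Ω : Set (E ι)) : Prop := ∀ x, x ∉ Ω → H x = 0

/-- `r`-separated sets -/
def Sep (r : ℝ) (Λ : Set (E ι)) : Prop := ∀ a ∈ Λ, ∀ b ∈ Λ, a ≠ b → r ≤ ‖a - b‖

/-- the identity of Parseval at all points -/
def ParsAll (Λ Ω : Set (E ι)) : Prop :=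
  ∀ H : E ι → ℂ, Bdd H → SuppIn H Ω → ∀ z : E ι,
    HasSum (fun a : Λ => ‖ft H (z - a)‖ ^ 2) ((volume Ω).toReal * ∫ x, ‖H x‖ ^ 2)

/-- autocorrelation -/
noncomputable def aut (H : E ι → ℂ) (t : E ι) : ℂ := ∫ x, H (x + t) * (starRingEnd ℂ) (H x)

/-- exponential sum of a finite set -/
noncomputable def P (S : Finset (E ι)) (t : E ι) : ℂ := ∑ a ∈ S, ee (⟪a, t⟫_ℝ)

/-- volume of the ball of radius `R` -/
noncomputable def q (ι : Type) [Fintype ι] (R : ℝ) : ℝ :=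
  (volume (Metric.closedBall (0 : E ι) R)).toReal

/-- `S` consists of the points of `Λ` in the ball of radius `R` -/
def Trunc (Λ : Set (E ι)) (R : ℝ) (S : Finset (E ι)) : Prop :=
  (S : Set (E ι)) = Λ ∩ Metric.closedBall 0 R

/-- the weight `|B ∩ (B + s)| / |B|` -/
noncomputable def wt (B : Set (E κ)) (s : E κ) : ℝ :=
  (volume (B ∩ {y | y - s ∈ B})).toReal / (volume B).toReal

/-- `G_H(z) = ∑_{a ∈ Λ} |Ĥ(z - a)|²` -/
noncomputable def G (Λ : Set (E ι)) (H : E ι → ℂ) (z : E ι) : ℝ := ∑' a : Λ, ‖ft H (z - a)‖ ^ 2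

/-- the tensor product of the indicator function of the cube of side `j` and `F` -/
noncomputable def cubeT (ι : Type) [Fintype ι] (j : ℕ) (F : E κ → ℂ) (z : E (ι ⊕ κ)) : ℂ :=
  ({x : E ι | ∀ i, |x i| ≤ (j : ℝ) / 2}.indicator (fun _ => (1 : ℂ)) (fst z)) * F (snd z)

/-- the indicator function of `A` as a complex function -/
noncomputable def ind (A : Set (E ι)) (x : E ι) : ℂ := A.indicator (fun _ => (1 : ℂ)) x

/-- weak tilings: locally finite measures `ν` with `1_A * ν = 1` almost everywhere, with mass at least one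
at the origin -/
def WTile (A : Set (E ι)) (ν : Measure (E ι)) : Prop :=
  IsLocallyFiniteMeasure ν ∧ (∀ᵐ x : E ι, ν {t | x - t ∈ A} = 1) ∧ 1 ≤ ν {0}

/-- the lattice generated by a basis -/
def lat (b : Module.Basis ι ℝ (E ι)) : Set (E ι) := {x | ∃ c : ι → ℤ, x = ∑ i, (c i : ℝ) • b i}

/-- rigid tiles: `A` tiles with the lattice of `b`, and every weak tiling is supported on the lattice -/
def Rigid (A : Set (E ι)) : Prop :=
  IsCompact A ∧ 0 < volume A ∧ ∃ b : Module.Basis ι ℝ (E ι),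
    (∀ᵐ x : E ι, ∃! c : ι → ℤ, x - ∑ i, (c i : ℝ) • b i ∈ A) ∧
    ∀ ν : Measure (E ι), WTile A ν → ν (lat b)ᶜ = 0

/-! ### Polytopes -/

/-- a finite system of linear inequalities -/
structure HP (ι : Type) [Fintype ι] where
  /-- number of inequalities -/
  N : ℕ
  /-- normals -/
  u : Fin N → E ι
  /-- right hand sides -/
  h : Fin N → ℝ

/-- the polytope -/
def HP.body (Q : HP ι) : Set (E ι) := {x | ∀ i, ⟪Q.u i, x⟫_ℝ ≤ Q.h i}

/-- bounded, with nonempty interior, all normals different from zero -/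
def HP.Good (Q : HP ι) : Prop :=
  Bornology.IsBounded Q.body ∧ (∀ i, Q.u i ≠ 0) ∧ ∃ x, ∀ i, ⟪Q.u i, x⟫_ℝ < Q.h i

/-- active inequalities -/
def HP.act (Q : HP ι) (x : E ι) : Set (Fin Q.N) := {i | ⟪Q.u i, x⟫_ℝ = Q.h i}

/-- the cone of a set of indices -/
def HP.coneI (Q : HP ι) (I : Set (Fin Q.N)) : Set (E ι) := {z | ∀ i ∈ I, ⟪Q.u i, z⟫_ℝ ≤ 0}

/-- tangent cone -/
def HP.cone (Q : HP ι) (x : E ι) : Set (E ι) := Q.coneI (Q.act x)

/-- the mass of the tiles for which exactly the inequalities of `I` are active at `p` -/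
noncomputable def HP.mass (Q : HP ι) (ν : Measure (E ι)) (p : E ι) (I : Set (Fin Q.N)) : ℝ≥0∞ :=
  ν {t | p - t ∈ Q.body ∧ Q.act (p - t) = I}

/-- `p` lies on a ridge of the facet `i` in a belt of six facets: near `p` the polytope is given by the
two inequalities `i, j`, and at some point `q` the tangent cone is the wedge
`{0 ≤ u_j, 0 ≤ α u_j - β u_i}`. -/
def HP.Six (Q : HP ι) (i : Fin Q.N) (p : E ι) : Prop :=
  p ∈ Q.body ∧ ∃ j, Q.act p = {i, j} ∧ LinearIndependent ℝ ![Q.u i, Q.u j] ∧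
    ∃ s ∈ Q.body, ∃ α β : ℝ, 0 < α ∧ 0 < β ∧
      Q.cone s = {z | 0 ≤ ⟪Q.u j, z⟫_ℝ ∧ 0 ≤ ⟪α • Q.u j - β • Q.u i, z⟫_ℝ}

/-- the facet `i` with the facet vector `t` is locked: the opposite face is the translate of the facet
by `-t`, and the facet has a vertex `v` near which the points of six-belt ridges are dense in the
relative boundary of the facet -/
def HP.Locked (Q : HP ι) (i : Fin Q.N) (t : E ι) : Prop :=
  (∃ f ∈ Q.body, ∀ j, j ∈ Q.act f ↔ j = i) ∧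
  (∀ x, (x ∈ Q.body ∧ i ∈ Q.act x) ↔
    (x - t ∈ Q.body ∧ ∀ y ∈ Q.body, ⟪Q.u i, x - t⟫_ℝ ≤ ⟪Q.u i, y⟫_ℝ)) ∧
  ∃ v ∈ Q.body, i ∈ Q.act v ∧ (∀ z, (∀ j ∈ Q.act v, ⟪Q.u j, z⟫_ℝ = 0) → z = 0) ∧
    ∃ ε > 0, ∀ s ∈ Q.body, i ∈ Q.act s → ‖s - v‖ < ε → (∃ j, j ≠ i ∧ j ∈ Q.act s) →
      ∀ η > 0, ∃ p, ‖p - s‖ < η ∧ i ∈ Q.act p ∧ Q.Six i p

/-- locked parallelohedra: the polytope tiles with a lattice which is generated by the vectors of
locked facets -/
def HP.LockedTile (Q : HP ι) : Prop :=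
  Q.Good ∧ ∃ b : Module.Basis ι ℝ (E ι),
    (∀ᵐ x : E ι, ∃! c : ι → ℤ, x - ∑ i, (c i : ℝ) • b i ∈ Q.body) ∧
    ∀ x ∈ lat b, x ∈ AddSubmonoid.closure {t | ∃ i, Q.Locked i t}

end defs
end Pool.Agent.Helper64.SPX
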