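import Pool.Agent.Helper64.SPX.Spec

/-!
# Spectral products: assembly of the analytic parts
-/

set_option autoImplicit false

open MeasureTheory Filter Topology Set
open scoped InnerProductSpace ENNReal

namespace Pool.Agent.Helper64.SPX

section basics

variable {ι κ : Type} [Fintype ι] [Fintype κ]

lemma norm_fst_le (z : E (ι ⊕ κ)) : ‖fst z‖ ≤ ‖z‖ := by
  rw [EuclideanSpace.norm_eq, EuclideanSpace.norm_eq]
  apply Real.sqrt_le_sqrt
  rw [Fintype.sum_sum_type]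
  have : 0 ≤ ∑ j : κ, ‖z.ofLp (Sum.inr j)‖ ^ 2 := Finset.sum_nonneg fun _ _ => by positivity
  simp only [fst]
  linarith

lemma norm_snd_le (z : E (ι ⊕ κ)) : ‖snd z‖ ≤ ‖z‖ := by
  rw [EuclideanSpace.norm_eq, EuclideanSpace.norm_eq]
  apply Real.sqrt_le_sqrt
  rw [Fintype.sum_sum_type]
  have : 0 ≤ ∑ j : ι, ‖z.ofLp (Sum.inl j)‖ ^ 2 := Finset.sum_nonneg fun _ _ => by positivity
  simp only [snd]
  linarith

lemma norm_sq_split (z : E (ι ⊕ κ)) : ‖z‖ ^ 2 = ‖fst z‖ ^ 2 + ‖snd z‖ ^ 2 := by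
  rw [EuclideanSpace.norm_sq_eq, EuclideanSpace.norm_sq_eq, EuclideanSpace.norm_sq_eq,
    Fintype.sum_sum_type]
  rfl

lemma continuous_fst' : Continuous (fst : E (ι ⊕ κ) → E ι) := by
  unfold fst
  fun_prop

lemma continuous_snd' : Continuous (snd : E (ι ⊕ κ) → E κ) := by
  unfold snd
  fun_prop

lemma inner_pair_left (v : E ι) (z : E (ι ⊕ κ)) : ⟪pair v 0, z⟫_ℝ = ⟪v, fst z⟫_ℝ := by
  simp [pair, fst, PiLp.inner_apply, Fintype.sum_sum_type]

end basics

/-- exponents of the cube functions -/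
lemma bdd_cubeT {ι κ : Type} [Fintype ι] [Fintype κ] (j : ℕ) (F : E κ → ℂ) (hF : Bdd F) :
    Bdd (cubeT ι j F) := by
  obtain ⟨hm, ⟨C, hC⟩, r, hr⟩ := hF
  refine ⟨?_, ⟨max C 0, ?_⟩, max ((Fintype.card ι : ℝ) * j + 1) 1 + max r 0 + 1, ?_⟩
  · unfold cubeT
    apply Measurable.mul
    · refine Measurable.comp (g := {x : E ι | ∀ i, |x i| ≤ (j : ℝ) / 2}.indicator
        (fun _ => (1 : ℂ))) ?_ continuous_fst'.measurable
      apply Measurable.indicator measurable_const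
      have : {x : E ι | ∀ i, |x i| ≤ (j : ℝ) / 2} = ⋂ i, {x : E ι | |x i| ≤ (j : ℝ) / 2} := by
        ext x; simp
      rw [this]
      exact MeasurableSet.iInter fun i => measurableSet_le (by fun_prop) measurable_const
    · exact hm.comp continuous_snd'.measurable
  · intro x
    unfold cubeT
    rw [norm_mul]
    have h1 : ‖({x : E ι | ∀ i, |x i| ≤ (j : ℝ) / 2}.indicator (fun _ => (1 : ℂ)) (fst x))‖ ≤ 1 := by
      by_cases h : fst x ∈ {x : E ι | ∀ i, |x i| ≤ (j : ℝ) / 2}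
      · rw [Set.indicator_of_mem h]; simp
      · rw [Set.indicator_of_notMem h]; simp
    calc _ ≤ 1 * max C 0 := by
          apply mul_le_mul h1 ((hC _).trans (le_max_left _ _)) (norm_nonneg _) (by norm_num)
      _ = max C 0 := one_mul _
  · intro x hx
    unfold cubeT
    by_cases h : fst x ∈ {x : E ι | ∀ i, |x i| ≤ (j : ℝ) / 2}
    · have h2 : r ≤ ‖snd x‖ := by
        by_contra hcon
        push Not at hcon
        have h3 : ‖fst x‖ ≤ (Fintype.card ι : ℝ) * j + 1 := by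
          have h4 : ‖fst x‖ ^ 2 ≤ ((Fintype.card ι : ℝ) * j + 1) ^ 2 := by
            rw [EuclideanSpace.norm_sq_eq]
            calc ∑ i, ‖(fst x).ofLp i‖ ^ 2 ≤ ∑ _i : ι, ((j : ℝ) / 2) ^ 2 := by
                  apply Finset.sum_le_sum
                  intro i _
                  have := h i
                  rw [Real.norm_eq_abs]
                  exact pow_le_pow_left₀ (abs_nonneg _) this 2
              _ = (Fintype.card ι : ℝ) * ((j : ℝ) / 2) ^ 2 := by simp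
              _ ≤ ((Fintype.card ι : ℝ) * j + 1) ^ 2 := by
                  rcases Nat.eq_zero_or_pos (Fintype.card ι) with h0 | h0
                  · rw [h0]; simp
                  · have h1 : (1 : ℝ) ≤ Fintype.card ι := by exact_mod_cast h0
                    have h2 : (0 : ℝ) ≤ j := by positivity
                    nlinarith [mul_nonneg (sub_nonneg.mpr h1) (mul_nonneg h2 h2),
                      mul_nonneg (sub_nonneg.mpr h1) (mul_nonneg (le_trans zero_le_one h1)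
                        (mul_nonneg h2 h2)), mul_nonneg h2 (le_trans zero_le_one h1), sq_nonneg (j : ℝ)]
          exact (abs_le_of_sq_le_sq' h4 (by positivity)).2
        have h5 : ‖x‖ ^ 2 = ‖fst x‖ ^ 2 + ‖snd x‖ ^ 2 := norm_sq_split x
        have h6 : ‖x‖ ≤ ‖fst x‖ + ‖snd x‖ := by
          nlinarith [norm_nonneg x, norm_nonneg (fst x), norm_nonneg (snd x),
            mul_nonneg (norm_nonneg (fst x)) (norm_nonneg (snd x))]
        have h7 := le_max_left ((Fintype.card ι : ℝ) * j + 1) 1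
        have h8 := le_max_left r 0
        linarith
      rw [hr _ h2, mul_zero]
    · rw [Set.indicator_of_notMem h, zero_mul]

/-- dual basis -/
lemma exists_dual {ι : Type} [Fintype ι] (b : Module.Basis ι ℝ (E ι)) :
    ∃ v : ι → E ι, (∀ i, ⟪v i, b i⟫_ℝ = 1) ∧ (∀ i j, i ≠ j → ⟪v i, b j⟫_ℝ = 0) ∧
      LinearIndependent ℝ v := by
  classical
  have hv : ∀ i, ∃ w : E ι, ∀ x, ⟪w, x⟫_ℝ = b.coord i x := by
    intro i
    refine ⟨(InnerProductSpace.toDual ℝ (E ι)).symm (LinearMap.toContinuousLinearMap (b.coord i)), ?_⟩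
    intro x
    rw [InnerProductSpace.toDual_symm_apply]
    rfl
  choose v hv using hv
  have h1 : ∀ i, ⟪v i, b i⟫_ℝ = 1 := by intro i; rw [hv]; simp
  have h2 : ∀ i j, i ≠ j → ⟪v i, b j⟫_ℝ = 0 := by
    intro i j hij
    rw [hv]
    simp [Finsupp.single_apply, Ne.symm hij]
  refine ⟨v, h1, h2, ?_⟩
  rw [Fintype.linearIndependent_iff]
  intro g hg i
  have := congrArg (fun w => ⟪w, b i⟫_ℝ) hg
  simp only [sum_inner, inner_zero_left, inner_smul_left] at this
  rw [Finset.sum_eq_single i] at this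
  · simpa [h1] using this
  · intro j _ hj
    rw [h2 j i hj]; simp
  · simp

theorem red_main (hSPLIT : S_SPLIT) (hPARS : S_PARS) (hSEPA : S_SEPA) (hCONT : S_CONT)
    (hCOUNT : S_COUNT) (hMEAS : S_MEAS) (hSM : S_SM) (hSEL : S_SEL) (hLAM : S_LAM) (hPER : S_PER)
    (hATOM : S_ATOM) (hTB : S_TB) (hFIN : S_FIN) (hDNS : S_DNS) (hBND : S_BND) : S_RED := by
  classical
  intro ι κ _ _ A B hA hBm hBb hB0 hsp
  obtain ⟨Λ, hΛ⟩ := hsp
  obtain ⟨hAc, hA0, b, htile, hrig⟩ := hA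
  obtain ⟨e, he, he', hemp⟩ := hSPLIT ι κ
  -- the product set
  have hΩe : prodSet A B = e ⁻¹' (A ×ˢ B) := by
    ext z; simp [prodSet, he]
  have hΩm : MeasurableSet (prodSet A B) := by
    rw [hΩe]; exact e.measurable (hAc.measurableSet.prod hBm)
  have hΩv : volume (prodSet A B) = volume A * volume B := by
    rw [hΩe, hemp.measure_preimage (hAc.measurableSet.prod hBm).nullMeasurableSet,
      Measure.prod_prod]
  have hΩ0 : 0 < volume (prodSet A B) := by
    rw [hΩv]; exact ENNReal.mul_pos hA0.ne' hB0.ne'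
  have hΩb : Bornology.IsBounded (prodSet A B) := by
    obtain ⟨CA, hCA⟩ := hAc.isBounded.exists_norm_le
    obtain ⟨CB, hCB⟩ := hBb.exists_norm_le
    rw [isBounded_iff_forall_norm_le]
    refine ⟨CA + CB, ?_⟩
    intro z hz
    have h1 := hCA _ hz.1
    have h2 := hCB _ hz.2
    have h3 := norm_sq_split z
    nlinarith [norm_nonneg z, norm_nonneg (fst z), norm_nonneg (snd z),
      mul_nonneg (norm_nonneg (fst z)) (norm_nonneg (snd z))]
  obtain ⟨r, hr, hsep⟩ := hSEPA _ _ _ hΩm hΩb hΩ0 hΛ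
  have hpars : ParsAll Λ (prodSet A B) := (hPARS _ _ _ hΩm hΩb hΩ0).1 hΛ
  obtain ⟨hfin, -⟩ := hCOUNT _ Λ r hr hsep
  -- truncations
  set S : ℕ → Finset (E (ι ⊕ κ)) := fun k => (hfin (k : ℝ)).toFinset with hSdef
  have hS : ∀ k : ℕ, Trunc Λ k (S k) := by
    intro k
    unfold Trunc
    simp [hSdef]
  obtain ⟨ν, c, hc, hνf, hνt, hν0, hνlim⟩ :=
    hMEAS ι κ A B Λ r S hAc hA0 hBm hBb hB0 hΛ hr hsep hS
  -- rigidity
  have hνlat : ν (lat b)ᶜ = 0 := by
    have hw : WTile A ((ENNReal.ofReal c)⁻¹ • ν) := by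
      have hc1 : ENNReal.ofReal c ≠ 0 := by simpa using hc
      have hc2 : ENNReal.ofReal c ≠ ⊤ := ENNReal.ofReal_ne_top
      refine ⟨?_, ?_, ?_⟩
      · refine ⟨fun x => ?_⟩
        obtain ⟨s, hs, hs'⟩ := hνf.finiteAtNhds x
        refine ⟨s, hs, ?_⟩
        rw [Measure.smul_apply, smul_eq_mul]
        exact ENNReal.mul_lt_top (ENNReal.inv_lt_top.mpr (pos_iff_ne_zero.mpr hc1)) hs'
      · filter_upwards [hνt] with x hx
        rw [Measure.smul_apply, smul_eq_mul, hx, ENNReal.inv_mul_cancel hc1 hc2]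
      · rw [Measure.smul_apply, smul_eq_mul]
        calc (1 : ℝ≥0∞) = (ENNReal.ofReal c)⁻¹ * ENNReal.ofReal c :=
              (ENNReal.inv_mul_cancel hc1 hc2).symm
          _ ≤ _ := by gcongr
    have := hrig _ hw
    rw [Measure.smul_apply, smul_eq_mul, mul_eq_zero] at this
    rcases this with h | h
    · exact absurd h (by simp)
    · exact h
  obtain ⟨v, hv1, hv2, hvli⟩ := exists_dual b
  have hvint : ∀ l i, ∃ m : ℤ, ⟪v l, b i⟫_ℝ = m := by
    intro l i
    by_cases h : l = i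
    · subst h; exact ⟨1, by rw [hv1]; simp⟩
    · exact ⟨0, by rw [hv2 _ _ h]; simp⟩
  obtain ⟨F, hF, hdns⟩ := hDNS ι κ B hBm hBb
  -- enumeration
  set w : ℕ → E ι := fun n => if h : n < Fintype.card ι then
    v ((Fintype.equivFin ι).symm ⟨n, h⟩) else 0 with hw
  have hwint : ∀ n i, ∃ m : ℤ, ⟪w n, b i⟫_ℝ = m := by
    intro n i
    simp only [hw]
    split_ifs with h
    · exact hvint _ _
    · exact ⟨0, by simp⟩
  have hwsurj : ∀ l, ∃ n, w n = v l := by
    intro l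
    refine ⟨(Fintype.equivFin ι l : ℕ), ?_⟩
    simp [hw]
  set H : ℕ → E (ι ⊕ κ) → ℂ := fun n => cubeT ι n.unpair.1 (F n.unpair.2.unpair.1) with hH
  set V : ℕ → E (ι ⊕ κ) := fun n => pair (w n.unpair.2.unpair.2) 0 with hV
  have hHb : ∀ n, Bdd (H n) := fun n => bdd_cubeT _ _ (hF _).1
  have hsmall : ∀ n, Tendsto (fun k : ℕ => (1 / q (ι ⊕ κ) k) *
      ∫ τ, ‖aut (H n) τ‖ ^ 2 * ‖ee ⟪V n, τ⟫_ℝ - 1‖ ^ 2 * ‖P (S k) τ‖ ^ 2)
      (hyperfilter ℕ : Filter ℕ) (𝓝 0) := fun n =>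
    hSM ι κ B S ν b hBm hBb hB0 hνf hνlim hνlat (w n.unpair.2.unpair.2) (hwint _) n.unpair.1
      (F n.unpair.2.unpair.1) (hF _).1 (hF _).2
  obtain ⟨z, hz⟩ := hSEL (ι ⊕ κ) Λ r S H V hr hsep hS hHb hsmall
  obtain ⟨Λ', hsep', hlim⟩ := hLAM (ι ⊕ κ) Λ r z hr hsep
  have hper : ∀ n u, G Λ' (H n) (u + V n) = G Λ' (H n) u := fun n =>
    hPER (ι ⊕ κ) Λ Λ' r z (H n) (V n) hr hsep hsep' (hHb n) (hlim _ (hHb n)) (hz n)
  have hpars' : ParsAll Λ' (prodSet A B) := by
    intro K hK hKs u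
    have h1 : ∀ y, G Λ K y = (volume (prodSet A B)).toReal * ∫ x, ‖K x‖ ^ 2 := fun y =>
      (hpars K hK hKs y).tsum_eq
    have h2 := hlim K hK u
    simp only [h1] at h2
    have h3 : G Λ' K u = (volume (prodSet A B)).toReal * ∫ x, ‖K x‖ ^ 2 :=
      tendsto_nhds_unique h2 tendsto_const_nhds |>.symm ▸ rfl
    rw [← h3]
    exact ((hCONT _ K hK r hr Λ' hsep').1 u).hasSum
  have hBND' := hBND ι κ A B Λ' hAc hA0 hBm hBb hpars'
  have hat : ∀ (l : ι) (j : ℕ) (x : E ι) (y : E κ),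
      ∑' a : {a : E (ι ⊕ κ) // a ∈ Λ' ∧ fst a = x + v l}, ‖ft (F j) (y - snd a.1)‖ ^ 2 =
      ∑' a : {a : E (ι ⊕ κ) // a ∈ Λ' ∧ fst a = x}, ‖ft (F j) (y - snd a.1)‖ ^ 2 := by
    intro l j
    obtain ⟨n, hn⟩ := hwsurj l
    apply hATOM ι κ Λ' r (F j) (v l) hr hsep' (hF j).1
    intro m _ u
    have := hper (Nat.pair m (Nat.pair j n)) u
    simpa [hH, hV, hn] using this
  apply hFIN ι κ A B Λ' r v hAc hA0 hBm hBb hB0 hr hsep' hvli hpars'
  · exact hTB ι b v A hv1 hv2 hAc htile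
  · intro F' hF' hF's l x y
    exact hdns Λ' _ (v l) hBND' (hat l) F' hF' hF's x y

end Pool.Agent.Helper64.SPX
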