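import Pool.Agent.Helper64.SPX.Spec2
import Pool.Agent.Helper64.SPX.RED

/-!
# Spectral products: the class of tiles
-/

set_option autoImplicit false

open MeasureTheory Filter Topology Set
open scoped InnerProductSpace ENNReal

namespace Pool.Agent.Helper64.SPX

section

variable {ι κ μ : Type} [Fintype ι] [Fintype κ] [Fintype μ]

/-- `B` is spectral whenever `A × B` is -/
def Removable (A : Set (E ι)) : Prop :=
  ∀ (κ : Type) [Fintype κ] (B : Set (E κ)), MeasurableSet B → Bornology.IsBounded B →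
    0 < volume B → Spectral (prodSet A B) → Spectral B

/-- `ℝ^(ι+κ) = ℝ^ι × ℝ^κ` as a linear equivalence -/
def spl (ι κ : Type) [Fintype ι] [Fintype κ] : E (ι ⊕ κ) ≃ₗ[ℝ] (E ι × E κ) where
  toFun z := (fst z, snd z)
  invFun p := pair p.1 p.2
  map_add' x y := rfl
  map_smul' c x := rfl
  left_inv z := by
    ext i
    rcases i with i | i <;> rfl
  right_inv p := rfl

lemma mem_prodSet (A : Set (E ι)) (B : Set (E κ)) (z : E (ι ⊕ κ)) :
    z ∈ prodSet A B ↔ spl ι κ z ∈ A ×ˢ B := Iff.rfl

lemma prodSet_closed {A : Set (E ι)} {B : Set (E κ)} (hA : IsClosed A) (hB : IsClosed B) :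
    IsClosed (prodSet A B) :=
  (hA.preimage continuous_fst').inter (hB.preimage continuous_snd')

lemma prodSet_meas {A : Set (E ι)} {B : Set (E κ)} (hA : MeasurableSet A) (hB : MeasurableSet B) :
    MeasurableSet (prodSet A B) :=
  (continuous_fst'.measurable hA).inter (continuous_snd'.measurable hB)

lemma prodSet_bdd {A : Set (E ι)} {B : Set (E κ)} (hA : Bornology.IsBounded A)
    (hB : Bornology.IsBounded B) : Bornology.IsBounded (prodSet A B) := by
  obtain ⟨CA, hCA⟩ := hA.exists_norm_le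
  obtain ⟨CB, hCB⟩ := hB.exists_norm_le
  rw [isBounded_iff_forall_norm_le]
  refine ⟨CA + CB, ?_⟩
  intro z hz
  have h1 := hCA _ hz.1
  have h2 := hCB _ hz.2
  have h3 := norm_sq_split z
  nlinarith [norm_nonneg z, norm_nonneg (fst z), norm_nonneg (snd z),
    mul_nonneg (norm_nonneg (fst z)) (norm_nonneg (snd z))]

lemma prodSet_vol (hSPLIT : S_SPLIT) {A : Set (E ι)} {B : Set (E κ)} (hA : MeasurableSet A)
    (hB : MeasurableSet B) (hA0 : 0 < volume A) (hB0 : 0 < volume B) :
    0 < volume (prodSet A B) := by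
  obtain ⟨e, he, -, hemp⟩ := hSPLIT ι κ
  have hΩe : prodSet A B = e ⁻¹' (A ×ˢ B) := by
    ext z; simp [prodSet, he]
  rw [hΩe, hemp.measure_preimage (hA.prod hB).nullMeasurableSet, Measure.prod_prod]
  exact ENNReal.mul_pos hA0.ne' hB0.ne'

lemma image_vol (T : E ι ≃ₗ[ℝ] E κ) {A : Set (E ι)} (hA : IsCompact A) (hA0 : 0 < volume A) :
    0 < volume (T '' A) := by
  have hT : Continuous T.symm := LinearMap.continuous_of_finiteDimensional T.symm.toLinearMap
  have hT' : Continuous T := LinearMap.continuous_of_finiteDimensional T.toLinearMap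
  let e : E κ ≃L[ℝ] E ι := T.symm.toContinuousLinearEquiv
  have hμ : (Measure.map e (volume : Measure (E κ))).IsAddHaarMeasure :=
    e.isAddHaarMeasure_map _
  have h1 : Measure.map e (volume : Measure (E κ)) A = volume (T '' A) := by
    rw [Measure.map_apply e.continuous.measurable hA.measurableSet]
    congr 1
    ext x
    constructor
    · intro hx
      exact ⟨T.symm x, hx, by simp⟩
    · rintro ⟨y, hy, rfl⟩
      simpa [e] using hy
  rw [← h1]
  have h2 := Measure.isAddLeftInvariant_eq_smul (Measure.map e (volume : Measure (E κ)))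
    (volume : Measure (E ι))
  rw [h2, Measure.smul_apply]
  have h3 : Measure.addHaarScalarFactor (Measure.map e (volume : Measure (E κ)))
      (volume : Measure (E ι)) ≠ 0 :=
    (Measure.addHaarScalarFactor_pos_of_isAddHaarMeasure _ _).ne'
  rw [ENNReal.smul_def, smul_eq_mul]
  exact ENNReal.mul_pos (by simpa using h3) hA0.ne'

end

theorem cls_main (hSPLIT : S_SPLIT) (hG4 : S_G4) (hRED : S_RED) (hINV : S_INV) :
    ∀ (ι : Type) [Fintype ι] (A : Set (E ι)), Cls ι A →
      IsCompact A ∧ 0 < volume A ∧ Removable A := by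
  intro ι _ A hA
  induction hA with
  | locked ι Q hQ =>
    have hR := hG4 ι Q hQ
    exact ⟨hR.1, hR.2.1, fun κ _ B h1 h2 h3 h4 => hRED ι κ _ B hR h1 h2 h3 h4⟩
  | prod ι κ A A' _ _ ih ih' =>
    obtain ⟨hc, h0, hr⟩ := ih
    obtain ⟨hc', h0', hr'⟩ := ih'
    refine ⟨?_, ?_, ?_⟩
    · exact Metric.isCompact_of_isClosed_isBounded (prodSet_closed hc.isClosed hc'.isClosed)
        (prodSet_bdd hc.isBounded hc'.isBounded)
    · exact prodSet_vol hSPLIT hc.measurableSet hc'.measurableSet h0 h0'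
    · intro μ _ B hBm hBb hB0 hsp
      -- associativity
      let T : E ((ι ⊕ κ) ⊕ μ) ≃ₗ[ℝ] E (ι ⊕ (κ ⊕ μ)) :=
        (spl (ι ⊕ κ) μ).trans (((spl ι κ).prodCongr (LinearEquiv.refl ℝ (E μ))).trans
          ((LinearEquiv.prodAssoc ℝ (E ι) (E κ) (E μ)).trans
            (((LinearEquiv.refl ℝ (E ι)).prodCongr (spl κ μ).symm).trans
              (spl ι (κ ⊕ μ)).symm)))
      have hT : T '' (prodSet (prodSet A A') B) = prodSet A (prodSet A' B) := by
        ext z
        constructor
        · rintro ⟨y, hy, rfl⟩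
          exact ⟨hy.1.1, hy.1.2, hy.2⟩
        · intro hz
          refine ⟨T.symm z, ?_, by simp⟩
          exact ⟨⟨hz.1, hz.2.1⟩, hz.2.2⟩
      have h1 := hINV _ _ T _ (prodSet_meas (prodSet_meas hc.measurableSet hc'.measurableSet) hBm) hsp
      rw [hT] at h1
      have h2 := hr (κ ⊕ μ) (prodSet A' B) (prodSet_meas hc'.measurableSet hBm)
        (prodSet_bdd hc'.isBounded hBb) (prodSet_vol hSPLIT hc'.measurableSet hBm h0' hB0) h1
      exact hr' μ B hBm hBb hB0 h2
  | map ι κ T A _ ih =>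
    obtain ⟨hc, h0, hr⟩ := ih
    have hTc : Continuous T := LinearMap.continuous_of_finiteDimensional T.toLinearMap
    refine ⟨hc.image hTc, image_vol T hc h0, ?_⟩
    intro μ _ B hBm hBb hB0 hsp
    let T' : E (κ ⊕ μ) ≃ₗ[ℝ] E (ι ⊕ μ) :=
      (spl κ μ).trans ((T.symm.prodCongr (LinearEquiv.refl ℝ (E μ))).trans (spl ι μ).symm)
    have hT : T' '' (prodSet (T '' A) B) = prodSet A B := by
      ext z
      constructor
      · rintro ⟨y, ⟨⟨a, ha, hay⟩, hy2⟩, rfl⟩
        refine ⟨?_, hy2⟩
        have : fst (T' y) = T.symm (fst y) := rfl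
        rw [this, ← hay]
        simpa using ha
      · intro hz
        refine ⟨T'.symm z, ?_, by simp⟩
        exact ⟨⟨fst z, hz.1, rfl⟩, hz.2⟩
    have h1 := hINV _ _ T' _ (prodSet_meas (hc.image hTc).measurableSet hBm) hsp
    rw [hT] at h1
    exact hr μ B hBm hBb hB0 h1

end Pool.Agent.Helper64.SPX
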