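import Pool.Agent.Helper64.SPX.All

/-!
# Spectral products: the class of parallelohedra
-/

set_option autoImplicit false

open MeasureTheory Set
open scoped InnerProductSpace

namespace Pool.Agent.Helper64.SPX

/-- the class of parallelohedra: Voronoi cells of the lattices of `ℝ³`, of primitive lattices and of
lattices with an obtuse superbase, locked tiles, products, affine images -/
inductive Par : ∀ (ι : Type) [Fintype ι], Set (E ι) → Prop
  | three (β : Module.Basis (Fin 3) ℝ (E (Fin 3))) : Par (Fin 3) (vor β)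
  | primitive (ι : Type) [Fintype ι] (β : Module.Basis ι ℝ (E ι)) : Primitive β → Par ι (vor β)
  | obtuse (ι ω : Type) [Fintype ι] [Fintype ω] (b : ω → E ι) : Obt b → Par ι (vorB b)
  | locked (ι : Type) [Fintype ι] (Q : HP ι) : Q.LockedTile → Par ι Q.body
  | prod (ι κ : Type) [Fintype ι] [Fintype κ] (A : Set (E ι)) (A' : Set (E κ)) :
      Par ι A → Par κ A' → Par (ι ⊕ κ) (prodSet A A')
  | affine (ι κ : Type) [Fintype ι] [Fintype κ] (T : E ι ≃ₗ[ℝ] E κ) (a : E κ) (A : Set (E ι)) :
      Par ι A → Par κ ((fun x => T x + a) '' A)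

theorem par_cls (ι : Type) [Fintype ι] (A : Set (E ι)) (hA : Par ι A) :
    ∃ (A' : Set (E ι)) (a : E ι), Cls ι A' ∧ A = (fun x => x + a) '' A' := by
  induction hA with
  | three β => exact ⟨vor β, 0, three (Fin 3) β (by simp), by simp⟩
  | primitive ι β h => exact ⟨vor β, 0, vor_thm ι β h, by simp⟩
  | obtuse ι ω b h => exact ⟨vorB b, 0, first_kind ι ω b h, by simp⟩
  | locked ι Q h => exact ⟨Q.body, 0, Cls.locked ι Q h, by simp⟩
  | prod ι κ A A' _ _ ih1 ih2 =>
    obtain ⟨A1, a, h1, rfl⟩ := ih1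
    obtain ⟨A2, b, h2, rfl⟩ := ih2
    refine ⟨prodSet A1 A2, pair a b, Cls.prod ι κ A1 A2 h1 h2, ?_⟩
    ext z
    constructor
    · rintro ⟨⟨x, hx, hx'⟩, ⟨y, hy, hy'⟩⟩
      refine ⟨pair x y, ⟨hx, hy⟩, ?_⟩
      ext i
      rcases i with i | i
      · exact congrArg (fun w : E ι => w i) hx'
      · exact congrArg (fun w : E κ => w i) hy'
    · rintro ⟨w, ⟨hw1, hw2⟩, rfl⟩
      exact ⟨⟨fst w, hw1, rfl⟩, ⟨snd w, hw2, rfl⟩⟩
  | affine ι κ T a A _ ih =>
    obtain ⟨A1, c, h1, rfl⟩ := ih
    refine ⟨T '' A1, T c + a, Cls.map ι κ T A1 h1, ?_⟩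
    rw [Set.image_image, Set.image_image]
    congr 1
    ext1 x
    rw [map_add, add_assoc]

theorem par_removable (ι : Type) [Fintype ι] (A : Set (E ι)) (hA : Par ι A) :
    Removable A := by
  obtain ⟨A', a, hA', rfl⟩ := par_cls ι A hA
  intro κ _ B h1 h2 h3 h4
  apply (cls_thm ι A' hA').2.2 κ B h1 h2 h3
  have h5 := spectral_translate _ (pair (-a) (0 : E κ)) h4
  convert h5 using 1
  ext z
  constructor
  · rintro ⟨hz1, hz2⟩
    refine ⟨z + pair a 0, ⟨⟨fst z, hz1, rfl⟩, ?_⟩, ?_⟩
    · have : snd (z + pair a (0 : E κ)) = snd z := by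
        ext i
        show z (Sum.inr i) + (0 : ℝ) = z (Sum.inr i)
        rw [add_zero]
      rw [this]
      exact hz2
    · ext i
      rcases i with i | i
      · show z (Sum.inl i) + a i + (- a i) = z (Sum.inl i)
        ring
      · show z (Sum.inr i) + 0 + 0 = z (Sum.inr i)
        ring
  · rintro ⟨w, ⟨⟨x, hx, hx'⟩, hw⟩, rfl⟩
    constructor
    · have : fst (w + pair (-a) (0 : E κ)) = x := by
        ext i
        have := congrArg (fun u : E ι => u i) hx'
        show w (Sum.inl i) + (- a i) = x i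
        have h6 : x i + a i = w (Sum.inl i) := this
        rw [← h6]
        ring
      show fst (w + pair (-a) (0 : E κ)) ∈ A'
      rw [this]
      exact hx
    · have : snd (w + pair (-a) (0 : E κ)) = snd w := by
        ext i
        show w (Sum.inr i) + (0 : ℝ) = w (Sum.inr i)
        rw [add_zero]
      show snd (w + pair (-a) (0 : E κ)) ∈ B
      rw [this]
      exact hw

end Pool.Agent.Helper64.SPX
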