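import Pool.Agent.Helper64.SPX.Defs

/-!
# Spectral products: statements of the parts
-/

set_option autoImplicit false

open MeasureTheory Filter Topology Set
open scoped InnerProductSpace ENNReal

namespace Pool.Agent.Helper64.SPX

/-! ### Geometry -/

/-- G1: local equation.  For a fixed `t` and `k → ∞`, `p + u/k - t ∈ body` is eventually equivalent to
`p - t ∈ body ∧ u ∈ cone (p - t)`; first for almost every `u` (dominated convergence), then for all `u`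
off the finitely many hyperplanes, as both sides are locally constant there. -/
def S_G1 : Prop := ∀ (ι : Type) [Fintype ι] (Q : HP ι), Q.Good → ∀ ν : Measure (E ι),
  IsLocallyFiniteMeasure ν → (∀ᵐ x : E ι, ν {t | x - t ∈ Q.body} = 1) →
  ∀ p u : E ι, (∀ i, ⟪Q.u i, u⟫_ℝ ≠ 0) → ν {t | p - t ∈ Q.body ∧ u ∈ Q.cone (p - t)} = 1

/-- G2: no tile crosses a ridge of a six-belt (from G1) -/
def S_G2 : Prop := ∀ (ι : Type) [Fintype ι] (Q : HP ι), Q.Good → ∀ ν : Measure (E ι),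
  WTile Q.body ν → ∀ (i : Fin Q.N) (p : E ι), Q.Six i p →
  ν {t | p - t ∈ Q.body ∧ Q.cone (p - t) = {z | 0 ≤ ⟪Q.u i, z⟫_ℝ}} = 0

/-- G3: locked facets (from G1, G2) -/
def S_G3 : Prop := ∀ (ι : Type) [Fintype ι] (Q : HP ι), Q.Good → ∀ ν : Measure (E ι),
  WTile Q.body ν → ∀ (i : Fin Q.N) (t : E ι), Q.Locked i t → 1 ≤ ν {t}

/-- G4: locked tiles are rigid (from G3) -/
def S_G4 : Prop := ∀ (ι : Type) [Fintype ι] (Q : HP ι), Q.LockedTile → Rigid Q.body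

/-! ### Analysis -/

/-- SPLIT: `ℝ^(ι+κ) = ℝ^ι × ℝ^κ` -/
def S_SPLIT : Prop := ∀ (ι κ : Type) [Fintype ι] [Fintype κ], ∃ e : E (ι ⊕ κ) ≃ᵐ E ι × E κ,
  (∀ z, e z = (fst z, snd z)) ∧ (∀ x y, e.symm (x, y) = pair x y) ∧
  MeasurePreserving e volume ((volume : Measure (E ι)).prod (volume : Measure (E κ)))

/-- PARS: spectra and the identity of Parseval -/
def S_PARS : Prop := ∀ (ι : Type) [Fintype ι] (Ω Λ : Set (E ι)), MeasurableSet Ω →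
  Bornology.IsBounded Ω → 0 < volume Ω → (IsSpec Λ Ω ↔ ParsAll Λ Ω)

/-- SEPA: spectra are separated -/
def S_SEPA : Prop := ∀ (ι : Type) [Fintype ι] (Ω Λ : Set (E ι)), MeasurableSet Ω →
  Bornology.IsBounded Ω → 0 < volume Ω → IsSpec Λ Ω → ∃ r > 0, Sep r Λ

/-- AMAL: uniform summability of `|Ĥ|²` over separated sets -/
def S_AMAL : Prop := ∀ (ι : Type) [Fintype ι] (H : E ι → ℂ), Bdd H → ∀ r > 0,
  (∃ C : ℝ, ∀ S : Finset (E ι), Sep r (S : Set (E ι)) → ∀ z, ∑ a ∈ S, ‖ft H (z - a)‖ ^ 2 ≤ C) ∧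
  ∀ ε > 0, ∃ ρ : ℝ, ∀ S : Finset (E ι), Sep r (S : Set (E ι)) → ∀ z, (∀ a ∈ S, ρ ≤ ‖z - a‖) →
    ∑ a ∈ S, ‖ft H (z - a)‖ ^ 2 ≤ ε

/-- CONT: summability and continuity of `G` (from AMAL) -/
def S_CONT : Prop := ∀ (ι : Type) [Fintype ι] (H : E ι → ℂ), Bdd H → ∀ r > 0, ∀ Λ : Set (E ι),
  Sep r Λ → (∀ z, Summable (fun a : Λ => ‖ft H (z - a)‖ ^ 2)) ∧ Continuous (G Λ H)

/-- COUNT: numbers of points of separated sets -/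
def S_COUNT : Prop := ∀ (ι : Type) [Fintype ι] (Λ : Set (E ι)), ∀ r > 0, Sep r Λ →
  (∀ R : ℝ, (Λ ∩ Metric.closedBall 0 R).Finite) ∧
  ∃ C : ℝ, ∀ R : ℝ, 1 ≤ R → ∀ S, Trunc Λ R S → (S.card : ℝ) ≤ C * q ι R

/-- DENS: lower density (from AMAL) -/
def S_DENS : Prop := ∀ (ι : Type) [Fintype ι] (Ω Λ : Set (E ι)), MeasurableSet Ω →
  Bornology.IsBounded Ω → 0 < volume Ω → ParsAll Λ Ω → ∀ r > 0, Sep r Λ → ∀ ε > 0,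
  ∃ R0 : ℝ, ∀ R : ℝ, R0 ≤ R → ∀ S, Trunc Λ R S →
    ((volume Ω).toReal - ε) * q ι R ≤ (S.card : ℝ)

/-- T1: the exact tiling identity (orthogonality) -/
def S_T1 : Prop := ∀ (ι κ : Type) [Fintype ι] [Fintype κ] (A : Set (E ι)) (B : Set (E κ))
  (Λ : Set (E (ι ⊕ κ))), IsCompact A → MeasurableSet B → Bornology.IsBounded B → 0 < volume B →
  IsSpec Λ (prodSet A B) → ∀ S : Finset (E (ι ⊕ κ)), (S : Set (E (ι ⊕ κ))) ⊆ Λ → ∀ x : E ι,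
  ∫⁻ τ in {τ | x - fst τ ∈ A}, ENNReal.ofReal (wt B (snd τ) * ‖P S τ‖ ^ 2) =
    volume (prodSet A B) * S.card

/-- LIM: vague compactness along an ultrafilter (Riesz representation) -/
def S_LIM : Prop := ∀ (ι : Type) [Fintype ι] (μ : ℕ → Measure (E ι)),
  (∀ ρ : ℝ, ∃ C : ℝ≥0∞, C < ⊤ ∧ ∀ k, μ k (Metric.closedBall 0 ρ) ≤ C) →
  ∃ ν : Measure (E ι), IsLocallyFiniteMeasure ν ∧ ∀ f : E ι → ℝ, Continuous f →
    HasCompactSupport f →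
    Tendsto (fun k => ∫ t, f t ∂(μ k)) (hyperfilter ℕ : Filter ℕ) (𝓝 (∫ t, f t ∂ν))

/-- T3: the tiling identity for vague limits -/
def S_T3 : Prop := ∀ (ι : Type) [Fintype ι] (A : Set (E ι)) (μ : ℕ → Measure (E ι))
  (ν : Measure (E ι)) (c : ℕ → ℝ) (c' : ℝ), IsCompact A → (∀ k, IsLocallyFiniteMeasure (μ k)) →
  IsLocallyFiniteMeasure ν → (∀ k, 0 ≤ c k) → (∀ k x, μ k {t | x - t ∈ A} = ENNReal.ofReal (c k)) →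
  Tendsto c (hyperfilter ℕ : Filter ℕ) (𝓝 c') →
  (∀ f : E ι → ℝ, Continuous f → HasCompactSupport f →
    Tendsto (fun k => ∫ t, f t ∂(μ k)) (hyperfilter ℕ : Filter ℕ) (𝓝 (∫ t, f t ∂ν))) →
  ∀ᵐ x : E ι, ν {t | x - t ∈ A} = ENNReal.ofReal c'

/-- PL: Plancherel for `∑ |Ĥ(z - a)|²`, the Fourier transform of `aut H * P S` -/
def S_PL : Prop := ∀ (ι : Type) [Fintype ι] (H : E ι → ℂ), Bdd H → ∀ S : Finset (E ι),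
  (Integrable (fun z => (∑ a ∈ S, ‖ft H (z - a)‖ ^ 2) ^ 2) ∧
    ∫ z, (∑ a ∈ S, ‖ft H (z - a)‖ ^ 2) ^ 2 = ∫ τ, ‖aut H τ‖ ^ 2 * ‖P S τ‖ ^ 2) ∧
  ∀ v : E ι, ∫ z, (∑ a ∈ S, ‖ft H (z + v - a)‖ ^ 2 - ∑ a ∈ S, ‖ft H (z - a)‖ ^ 2) ^ 2 =
    ∫ τ, ‖aut H τ‖ ^ 2 * ‖ee ⟪v, τ⟫_ℝ - 1‖ ^ 2 * ‖P S τ‖ ^ 2

/-- T4: the atom at the origin (from PL) -/
def S_T4 : Prop := ∀ (ι : Type) [Fintype ι] (S : ℕ → Finset (E ι)) (D L : ℝ) (f : E ι → ℝ),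
  (∀ k, ∀ a ∈ S k, ‖a‖ ≤ k) →
  Tendsto (fun k : ℕ => ((S k).card : ℝ) / q ι k) (hyperfilter ℕ : Filter ℕ) (𝓝 D) →
  Continuous f → HasCompactSupport f → (∀ x, 0 ≤ f x) →
  Tendsto (fun k : ℕ => (1 / q ι k) * ∫ τ, f τ * ‖P (S k) τ‖ ^ 2) (hyperfilter ℕ : Filter ℕ) (𝓝 L) →
  D ^ 2 * f 0 ≤ L

/-- WC: the weight -/
def S_WC : Prop := ∀ (κ : Type) [Fintype κ] (B : Set (E κ)), MeasurableSet B →
  Bornology.IsBounded B → 0 < volume B → Continuous (wt B) ∧ HasCompactSupport (wt B) ∧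
  (∀ s, 0 ≤ wt B s ∧ wt B s ≤ 1 ∧ wt B (-s) = wt B s) ∧ wt B 0 = 1

/-- MEAS: the limit measure (from COUNT DENS T1 LIM T3 T4 WC PARS SPLIT) -/
def S_MEAS : Prop := ∀ (ι κ : Type) [Fintype ι] [Fintype κ] (A : Set (E ι)) (B : Set (E κ))
  (Λ : Set (E (ι ⊕ κ))) (r : ℝ) (S : ℕ → Finset (E (ι ⊕ κ))), IsCompact A → 0 < volume A →
  MeasurableSet B → Bornology.IsBounded B → 0 < volume B → IsSpec Λ (prodSet A B) → 0 < r →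
  Sep r Λ → (∀ k : ℕ, Trunc Λ k (S k)) →
  ∃ (ν : Measure (E ι)) (c : ℝ), 0 < c ∧ IsLocallyFiniteMeasure ν ∧
    (∀ᵐ x : E ι, ν {t | x - t ∈ A} = ENNReal.ofReal c) ∧ ENNReal.ofReal c ≤ ν {0} ∧
    ∀ f : E ι → ℝ, Continuous f → HasCompactSupport f →
      Tendsto (fun k : ℕ => (1 / q (ι ⊕ κ) k) *
        ∫ τ, f (fst τ) * wt B (snd τ) * ‖P (S k) τ‖ ^ 2) (hyperfilter ℕ : Filter ℕ)
        (𝓝 (∫ t, f t ∂ν))

/-- SM: smallness of the differences in the mean (from WC SPLIT) -/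
def S_SM : Prop := ∀ (ι κ : Type) [Fintype ι] [Fintype κ] (B : Set (E κ))
  (S : ℕ → Finset (E (ι ⊕ κ))) (ν : Measure (E ι)) (b : Module.Basis ι ℝ (E ι)),
  MeasurableSet B → Bornology.IsBounded B → 0 < volume B → IsLocallyFiniteMeasure ν →
  (∀ f : E ι → ℝ, Continuous f → HasCompactSupport f →
      Tendsto (fun k : ℕ => (1 / q (ι ⊕ κ) k) *
        ∫ τ, f (fst τ) * wt B (snd τ) * ‖P (S k) τ‖ ^ 2) (hyperfilter ℕ : Filter ℕ)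
        (𝓝 (∫ t, f t ∂ν))) →
  ν (lat b)ᶜ = 0 → ∀ v : E ι, (∀ i, ∃ m : ℤ, ⟪v, b i⟫_ℝ = m) → ∀ (j : ℕ) (F : E κ → ℂ), Bdd F →
  SuppIn F B →
  Tendsto (fun k : ℕ => (1 / q (ι ⊕ κ) k) *
    ∫ τ, ‖aut (cubeT ι j F) τ‖ ^ 2 * ‖ee ⟪pair v 0, τ⟫_ℝ - 1‖ ^ 2 * ‖P (S k) τ‖ ^ 2)
    (hyperfilter ℕ : Filter ℕ) (𝓝 0)

/-- SEL: selection of translates (from AMAL PL CONT) -/
def S_SEL : Prop := ∀ (ι : Type) [Fintype ι] (Λ : Set (E ι)) (r : ℝ) (S : ℕ → Finset (E ι))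
  (H : ℕ → E ι → ℂ) (v : ℕ → E ι), 0 < r → Sep r Λ → (∀ k : ℕ, Trunc Λ k (S k)) →
  (∀ j, Bdd (H j)) →
  (∀ j, Tendsto (fun k : ℕ => (1 / q ι k) *
    ∫ τ, ‖aut (H j) τ‖ ^ 2 * ‖ee ⟪v j, τ⟫_ℝ - 1‖ ^ 2 * ‖P (S k) τ‖ ^ 2)
    (hyperfilter ℕ : Filter ℕ) (𝓝 0)) →
  ∃ z : ℕ → E ι, ∀ (j : ℕ) (ρ : ℝ), Tendsto (fun k =>
    ∫ u in Metric.closedBall 0 ρ, (G Λ (H j) (z k + u + v j) - G Λ (H j) (z k + u)) ^ 2)
    atTop (𝓝 0)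

/-- LAM: limits of translates (from AMAL) -/
def S_LAM : Prop := ∀ (ι : Type) [Fintype ι] (Λ : Set (E ι)) (r : ℝ) (z : ℕ → E ι), 0 < r →
  Sep r Λ → ∃ Λ' : Set (E ι), Sep r Λ' ∧ ∀ H : E ι → ℂ, Bdd H → ∀ u,
    Tendsto (fun k => G Λ H (z k + u)) (hyperfilter ℕ : Filter ℕ) (𝓝 (G Λ' H u))

/-- PER: the limit is periodic (from CONT) -/
def S_PER : Prop := ∀ (ι : Type) [Fintype ι] (Λ Λ' : Set (E ι)) (r : ℝ) (z : ℕ → E ι)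
  (H : E ι → ℂ) (v : E ι), 0 < r → Sep r Λ → Sep r Λ' → Bdd H →
  (∀ u, Tendsto (fun k => G Λ H (z k + u)) (hyperfilter ℕ : Filter ℕ) (𝓝 (G Λ' H u))) →
  (∀ ρ : ℝ, Tendsto (fun k =>
    ∫ u in Metric.closedBall 0 ρ, (G Λ H (z k + u + v) - G Λ H (z k + u)) ^ 2) atTop (𝓝 0)) →
  ∀ u, G Λ' H (u + v) = G Λ' H u

/-- ATOM: from cubes to atoms (from AMAL SPLIT) -/
def S_ATOM : Prop := ∀ (ι κ : Type) [Fintype ι] [Fintype κ] (Λ : Set (E (ι ⊕ κ))) (r : ℝ)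
  (F : E κ → ℂ) (v : E ι), 0 < r → Sep r Λ → Bdd F →
  (∀ j : ℕ, 1 ≤ j → ∀ u, G Λ (cubeT ι j F) (u + pair v 0) = G Λ (cubeT ι j F) u) →
  ∀ (x : E ι) (y : E κ),
    ∑' a : {a : E (ι ⊕ κ) // a ∈ Λ ∧ fst a = x + v}, ‖ft F (y - snd a.1)‖ ^ 2 =
    ∑' a : {a : E (ι ⊕ κ) // a ∈ Λ ∧ fst a = x}, ‖ft F (y - snd a.1)‖ ^ 2

/-- TB: lattice tiles and the dual lattice (Fourier series in several variables) -/
def S_TB : Prop := ∀ (ι : Type) [Fintype ι] (b : Module.Basis ι ℝ (E ι)) (v : ι → E ι)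
  (A : Set (E ι)), (∀ i, ⟪v i, b i⟫_ℝ = 1) → (∀ i j, i ≠ j → ⟪v i, b j⟫_ℝ = 0) → IsCompact A →
  (∀ᵐ x : E ι, ∃! c : ι → ℤ, x - ∑ i, (c i : ℝ) • b i ∈ A) → ∀ x : E ι,
  HasSum (fun c : ι → ℤ => ‖ft (ind A) (x - ∑ i, (c i : ℝ) • v i)‖ ^ 2) ((volume A).toReal ^ 2)

/-- FIN: from periodicity to a spectrum of `B` (from PARS) -/
def S_FIN : Prop := ∀ (ι κ : Type) [Fintype ι] [Fintype κ] (A : Set (E ι)) (B : Set (E κ))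
  (Λ : Set (E (ι ⊕ κ))) (r : ℝ) (v : ι → E ι), IsCompact A → 0 < volume A → MeasurableSet B →
  Bornology.IsBounded B → 0 < volume B → 0 < r → Sep r Λ → LinearIndependent ℝ v →
  ParsAll Λ (prodSet A B) →
  (∀ x : E ι, HasSum (fun c : ι → ℤ => ‖ft (ind A) (x - ∑ i, (c i : ℝ) • v i)‖ ^ 2)
    ((volume A).toReal ^ 2)) →
  (∀ F : E κ → ℂ, Bdd F → SuppIn F B → ∀ (i : ι) (x : E ι) (y : E κ),
    ∑' a : {a : E (ι ⊕ κ) // a ∈ Λ ∧ fst a = x + v i}, ‖ft F (y - snd a.1)‖ ^ 2 =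
    ∑' a : {a : E (ι ⊕ κ) // a ∈ Λ ∧ fst a = x}, ‖ft F (y - snd a.1)‖ ^ 2) →
  Spectral B

/-- DNS: a countable family of functions is enough -/
def S_DNS : Prop := ∀ (ι κ : Type) [Fintype ι] [Fintype κ] (B : Set (E κ)), MeasurableSet B →
  Bornology.IsBounded B → ∃ F : ℕ → E κ → ℂ, (∀ j, Bdd (F j) ∧ SuppIn (F j) B) ∧
  ∀ (Λ : Set (E (ι ⊕ κ))) (C : ℝ) (v : E ι),
    (∀ F' : E κ → ℂ, Bdd F' → SuppIn F' B → ∀ (x : E ι) (y : E κ),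
      Summable (fun a : {a : E (ι ⊕ κ) // a ∈ Λ ∧ fst a = x} => ‖ft F' (y - snd a.1)‖ ^ 2) ∧
      ∑' a : {a : E (ι ⊕ κ) // a ∈ Λ ∧ fst a = x}, ‖ft F' (y - snd a.1)‖ ^ 2 ≤
        C * ∫ x, ‖F' x‖ ^ 2) →
    (∀ (j : ℕ) (x : E ι) (y : E κ),
      ∑' a : {a : E (ι ⊕ κ) // a ∈ Λ ∧ fst a = x + v}, ‖ft (F j) (y - snd a.1)‖ ^ 2 =
      ∑' a : {a : E (ι ⊕ κ) // a ∈ Λ ∧ fst a = x}, ‖ft (F j) (y - snd a.1)‖ ^ 2) →
    ∀ F' : E κ → ℂ, Bdd F' → SuppIn F' B → ∀ (x : E ι) (y : E κ),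
      ∑' a : {a : E (ι ⊕ κ) // a ∈ Λ ∧ fst a = x + v}, ‖ft F' (y - snd a.1)‖ ^ 2 =
      ∑' a : {a : E (ι ⊕ κ) // a ∈ Λ ∧ fst a = x}, ‖ft F' (y - snd a.1)‖ ^ 2

/-- BND: the bound needed in DNS -/
def S_BND : Prop := ∀ (ι κ : Type) [Fintype ι] [Fintype κ] (A : Set (E ι)) (B : Set (E κ))
  (Λ : Set (E (ι ⊕ κ))), IsCompact A → 0 < volume A → MeasurableSet B →
  Bornology.IsBounded B → ParsAll Λ (prodSet A B) →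
  ∀ F' : E κ → ℂ, Bdd F' → SuppIn F' B → ∀ (x : E ι) (y : E κ),
      Summable (fun a : {a : E (ι ⊕ κ) // a ∈ Λ ∧ fst a = x} => ‖ft F' (y - snd a.1)‖ ^ 2) ∧
      ∑' a : {a : E (ι ⊕ κ) // a ∈ Λ ∧ fst a = x}, ‖ft F' (y - snd a.1)‖ ^ 2 ≤
        (volume B).toReal * ∫ x, ‖F' x‖ ^ 2

/-- RED: rigid tiles can be removed from spectral products (assembly) -/
def S_RED : Prop := ∀ (ι κ : Type) [Fintype ι] [Fintype κ] (A : Set (E ι)) (B : Set (E κ)),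
  Rigid A → MeasurableSet B → Bornology.IsBounded B → 0 < volume B →
  Spectral (prodSet A B) → Spectral B

/-- INV: invariance under linear bijections -/
def S_INV : Prop := ∀ (ι κ : Type) [Fintype ι] [Fintype κ] (T : E ι ≃ₗ[ℝ] E κ) (Ω : Set (E ι)),
  MeasurableSet Ω → Spectral Ω → Spectral (T '' Ω)

end Pool.Agent.Helper64.SPX
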