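import Pool.Agent.Helper64.SPX.Spec

/-!
# Spectral products: Voronoi cells of primitive lattices; the class of tiles
-/

set_option autoImplicit false

open MeasureTheory Filter Topology Set
open scoped InnerProductSpace ENNReal

namespace Pool.Agent.Helper64.SPX

section

variable {ι κ : Type} [Fintype ι] [Fintype κ]

/-- the Voronoi cell of the lattice generated by `b` -/
def vor (b : Module.Basis ι ℝ (E ι)) : Set (E ι) := {x | ∀ l ∈ lat b, ‖x‖ ≤ ‖x - l‖}

/-- primitive lattices: every vertex of the Voronoi cell lies in exactly `n + 1` cells of the tiling -/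
def Primitive (b : Module.Basis ι ℝ (E ι)) : Prop :=
  ∀ v ∈ (vor b).extremePoints ℝ, {l | l ∈ lat b ∧ ‖v - l‖ = ‖v‖}.ncard = Fintype.card ι + 1

/-- the inequalities `⟪l, x⟫ ≤ ‖l‖²/2` of the Voronoi cell, for the lattice vectors `l ≠ 0` for which
equality holds somewhere on the cell -/
def VorRep (b : Module.Basis ι ℝ (E ι)) (Q : HP ι) : Prop :=
  Q.body = vor b ∧ Q.Good ∧ Function.Injective Q.u ∧
  (∀ i, Q.u i ∈ lat b ∧ Q.u i ≠ 0 ∧ Q.h i = ‖Q.u i‖ ^ 2 / 2 ∧ ∃ x ∈ vor b, ⟪Q.u i, x⟫_ℝ = Q.h i) ∧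
  (∀ l ∈ lat b, l ≠ 0 → (∃ x ∈ vor b, ‖x - l‖ = ‖x‖) → ∃ i, Q.u i = l)

end

/-- V1: finite representation (only finitely many lattice vectors matter; the inequalities which are
strict on the whole compact cell can be dropped, by convexity) -/
def S_V1 : Prop := ∀ (ι : Type) [Fintype ι] (b : Module.Basis ι ℝ (E ι)), ∃ Q : HP ι, VorRep b Q

/-- V2: in primitive lattices all facets are locked -/
def S_V2 : Prop := ∀ (ι : Type) [Fintype ι] (b : Module.Basis ι ℝ (E ι)) (Q : HP ι), VorRep b Q →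
  Primitive b → ∀ i, Q.Locked i (Q.u i)

/-- V3: the facet vectors generate the lattice -/
def S_V3 : Prop := ∀ (ι : Type) [Fintype ι] (b : Module.Basis ι ℝ (E ι)) (Q : HP ι), VorRep b Q →
  ∀ x ∈ lat b, x ∈ AddSubmonoid.closure (Set.range Q.u)

/-- V4: Voronoi cells tile -/
def S_V4 : Prop := ∀ (ι : Type) [Fintype ι] (b : Module.Basis ι ℝ (E ι)),
  ∀ᵐ x : E ι, ∃! c : ι → ℤ, x - ∑ i, (c i : ℝ) • b i ∈ vor b

/-- the class of tiles: locked parallelohedra, products, linear images -/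
inductive Cls : ∀ (ι : Type) [Fintype ι], Set (E ι) → Prop
  | locked (ι : Type) [Fintype ι] (Q : HP ι) : Q.LockedTile → Cls ι Q.body
  | prod (ι κ : Type) [Fintype ι] [Fintype κ] (A : Set (E ι)) (A' : Set (E κ)) :
      Cls ι A → Cls κ A' → Cls (ι ⊕ κ) (prodSet A A')
  | map (ι κ : Type) [Fintype ι] [Fintype κ] (T : E ι ≃ₗ[ℝ] E κ) (A : Set (E ι)) :
      Cls ι A → Cls κ (T '' A)

/-- VOR -/
theorem vor_cls (h1 : S_V1) (h2 : S_V2) (h3 : S_V3) (h4 : S_V4) (ι : Type) [Fintype ι]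
    (b : Module.Basis ι ℝ (E ι)) (hb : Primitive b) : Cls ι (vor b) := by
  obtain ⟨Q, hQ⟩ := h1 ι b
  rw [← hQ.1]
  apply Cls.locked
  refine ⟨hQ.2.1, b, ?_, ?_⟩
  · rw [hQ.1]; exact h4 ι b
  · intro x hx
    have := h3 ι b Q hQ x hx
    refine AddSubmonoid.closure_mono ?_ this
    rintro _ ⟨i, rfl⟩
    exact ⟨i, h2 ι b Q hQ hb i⟩

end Pool.Agent.Helper64.SPX
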